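import Mathlib

namespace Pool.Agent.Results.MP_9be8d1_co.SteinerValue

set_option linter.unusedSectionVars false
set_option linter.unusedVariables false

open Finset

variable {V : Type} [Fintype V] [DecidableEq V]

/-- `D` is a dominating set of the hypergraph `H`: every `v ∉ D` lies in an edge `e` with
`e \ {v} ⊆ D`. -/
def IsDominating (H : Finset (Finset V)) (D : Finset V) : Prop :=
  ∀ v, v ∉ D → ∃ e ∈ H, v ∈ e ∧ e.erase v ⊆ D

open Classical in
/-- The dominated number `φ(H)`: the maximum size of a set with dominating complement. -/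
noncomputable def phi (H : Finset (Finset V)) : ℕ :=
  (univ.filter fun S : Finset V => IsDominating H Sᶜ).sup Finset.card

/-- The sizes of the `r`-uniform hypergraphs with dominated number at most `s`; `f_r(s)` is the
maximum of this set. -/
def sizes (r s : ℕ) : Set ℕ :=
  {m | ∃ (V : Type) (_ : Fintype V) (_ : DecidableEq V) (H : Finset (Finset V)),
    (∀ e ∈ H, e.card = r) ∧ phi H ≤ s ∧ H.card = m}

/-! ### averages over the orderings of a finite set -/

/-- The average of `f` over all orderings of `G`, `n = |G|`. -/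
def avg : ℕ → Finset V → (List V → ℚ) → ℚ
  | 0, _, f => f []
  | n + 1, G, f => (∑ v ∈ G, avg n (G.erase v) (fun l => f (v :: l))) / (n + 1)

lemma avg_mono (n : ℕ) (G : Finset V) (hG : G.card = n) (f g : List V → ℚ)
    (h : ∀ l : List V, l.Nodup → (∀ x, x ∈ l ↔ x ∈ G) → f l ≤ g l) : avg n G f ≤ avg n G g := by
  induction n generalizing G f g with
  | zero =>
    have : G = ∅ := Finset.card_eq_zero.1 hG
    exact h [] List.nodup_nil (by simp [this])
  | succ n ih =>
    simp only [avg]
    refine div_le_div_of_nonneg_right (Finset.sum_le_sum fun v hv => ?_) (by positivity)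
    refine ih (G.erase v) (by rw [Finset.card_erase_of_mem hv, hG]; rfl) _ _ fun l hl hl' => ?_
    refine h (v :: l) (List.nodup_cons.2 ⟨fun hvl => by simpa using (hl' v).1 hvl, hl⟩) fun x => ?_
    rw [List.mem_cons, hl' x, Finset.mem_erase]
    constructor
    · rintro (rfl | h1)
      · exact hv
      · exact h1.2
    · intro h1
      by_cases hx : x = v
      · exact Or.inl hx
      · exact Or.inr ⟨hx, h1⟩

lemma avg_const (n : ℕ) (G : Finset V) (hG : G.card = n) (c : ℚ) : avg n G (fun _ => c) = c := by
  induction n generalizing G with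
  | zero => rfl
  | succ n ih =>
    simp only [avg]
    rw [Finset.sum_congr rfl fun v hv =>
      ih (G.erase v) (by rw [Finset.card_erase_of_mem hv, hG]; rfl)]
    rw [Finset.sum_const, hG, nsmul_eq_mul]
    push_cast
    field_simp

lemma avg_sum {ι : Type*} (I : Finset ι) (n : ℕ) (G : Finset V) (f : ι → List V → ℚ) :
    avg n G (fun l => ∑ i ∈ I, f i l) = ∑ i ∈ I, avg n G (f i) := by
  induction n generalizing G f with
  | zero => rfl
  | succ n ih =>
    simp only [avg]
    rw [← Finset.sum_div, Finset.sum_comm]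
    congr 1
    exact Finset.sum_congr rfl fun v _ => ih (G.erase v) _

/-- All members of `A` precede all members of `B` in the list. -/
def E (A B : Finset V) (l : List V) : Prop := ∀ a ∈ A, ∀ b ∈ B, l.idxOf a < l.idxOf b

/-- The members of `A` precede `t`, `t` precedes `x`, `x` precedes the members of `B`. -/
def F (A : Finset V) (t x : V) (B : Finset V) (l : List V) : Prop :=
  (∀ a ∈ A, l.idxOf a < l.idxOf t) ∧ l.idxOf t < l.idxOf x ∧ ∀ b ∈ B, l.idxOf x < l.idxOf b

open Classical in
/-- indicator function -/
noncomputable def ind (P : List V → Prop) (l : List V) : ℚ := if P l then 1 else 0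

lemma ind_congr {P Q : List V → Prop} (l l' : List V) (h : P l ↔ Q l') : ind P l = ind Q l' := by
  unfold ind
  by_cases hP : P l
  · rw [if_pos hP, if_pos (h.1 hP)]
  · rw [if_neg hP, if_neg (fun hQ => hP (h.2 hQ))]

lemma idx_self (v : V) (l : List V) : (v :: l).idxOf v = 0 := List.idxOf_cons_self

lemma idx_ne {v a : V} (h : v ≠ a) (l : List V) : (v :: l).idxOf a = l.idxOf a + 1 :=
  List.idxOf_cons_ne _ h

lemma E_cons_notMem {A B : Finset V} {v : V} (hA : v ∉ A) (hB : v ∉ B) (l : List V) :
    E A B (v :: l) ↔ E A B l := by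
  unfold E
  refine forall₂_congr fun a ha => forall₂_congr fun b hb => ?_
  have h1 : v ≠ a := by rintro rfl; exact hA ha
  have h2 : v ≠ b := by rintro rfl; exact hB hb
  rw [idx_ne h1, idx_ne h2]
  omega

lemma E_cons_mem {A B : Finset V} {v : V} (hA : v ∈ A) (hAB : Disjoint A B) (l : List V) :
    E A B (v :: l) ↔ E (A.erase v) B l := by
  unfold E
  constructor
  · intro h a ha b hb
    have hb' : v ≠ b := by rintro rfl; exact Finset.disjoint_left.1 hAB hA hb
    have := h a (Finset.mem_of_mem_erase ha) b hb
    rw [idx_ne (Finset.ne_of_mem_erase ha).symm, idx_ne hb'] at this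
    omega
  · intro h a ha b hb
    have hb' : v ≠ b := by rintro rfl; exact Finset.disjoint_left.1 hAB hA hb
    rw [idx_ne hb']
    by_cases hav : a = v
    · rw [hav, idx_self]; omega
    · rw [idx_ne (Ne.symm hav)]
      have := h a (Finset.mem_erase.2 ⟨hav, ha⟩) b hb
      omega

lemma E_cons_bad {A B : Finset V} {v a : V} (ha : a ∈ A) (hB : v ∈ B) (hAB : Disjoint A B)
    (l : List V) : ¬ E A B (v :: l) := by
  intro h
  have := h a ha v hB
  rw [idx_self] at this
  omega

lemma fact_ne (n : ℕ) : (n.factorial : ℚ) ≠ 0 := by positivity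

lemma avg_E (n : ℕ) (G A B : Finset V) (hG : G.card = n) (hA : A ⊆ G) (hB : B ⊆ G)
    (hAB : Disjoint A B) :
    avg n G (ind (E A B)) =
      (A.card.factorial : ℚ) * B.card.factorial / (A.card + B.card).factorial := by
  induction n generalizing G A with
  | zero =>
    have hG' : G = ∅ := Finset.card_eq_zero.1 hG
    obtain rfl : A = ∅ := Finset.subset_empty.1 (hG' ▸ hA)
    obtain rfl : B = ∅ := Finset.subset_empty.1 (hG' ▸ hB)
    simp [avg, ind, E]
  | succ n ih =>
    rcases A.eq_empty_or_nonempty with rfl | ⟨a₀, ha₀⟩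
    · have : ind (E (∅ : Finset V) B) = fun _ => 1 := by
        funext l
        simp [ind, E]
      rw [this, avg_const _ _ hG, Finset.card_empty, Nat.factorial_zero, zero_add, Nat.cast_one,
        one_mul, div_self (fact_ne _)]
    · obtain ⟨a, ha⟩ : ∃ a, A.card = a + 1 := ⟨A.card - 1, by
        have := Finset.card_pos.2 ⟨a₀, ha₀⟩; omega⟩
      have hc : ∀ v ∈ G, (G.erase v).card = n := fun v hv => by
        rw [Finset.card_erase_of_mem hv, hG]; rfl
      have key : ∀ v ∈ G, avg n (G.erase v) (fun l => ind (E A B) (v :: l)) =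
          (if v ∈ A then ((a.factorial : ℚ) * B.card.factorial / (a + B.card).factorial) else 0) +
          (if v ∈ G \ (A ∪ B) then
            (((a + 1).factorial : ℚ) * B.card.factorial / (a + 1 + B.card).factorial) else 0) := by
        intro v hv
        by_cases hvA : v ∈ A
        · have h1 : (fun l => ind (E A B) (v :: l)) = ind (E (A.erase v) B) := by
            funext l
            exact ind_congr _ _ (E_cons_mem hvA hAB l)
          rw [h1, ih (G.erase v) (A.erase v) (hc v hv) (Finset.erase_subset_erase v hA)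
            (fun b hb => Finset.mem_erase.2 ⟨by rintro rfl; exact Finset.disjoint_left.1 hAB hvA hb,
              hB hb⟩) (hAB.mono_left (Finset.erase_subset _ _))]
          rw [Finset.card_erase_of_mem hvA, ha, if_pos hvA, if_neg (by simp [hvA])]
          simp
        · by_cases hvB : v ∈ B
          · have h1 : (fun l => ind (E A B) (v :: l)) = fun _ => (0 : ℚ) := by
              funext l
              simp [ind, E_cons_bad ha₀ hvB hAB l]
            rw [h1, avg_const _ _ (hc v hv), if_neg hvA, if_neg (by simp [hvB])]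
            simp
          · have h1 : (fun l => ind (E A B) (v :: l)) = ind (E A B) := by
              funext l
              exact ind_congr _ _ (E_cons_notMem hvA hvB l)
            rw [h1, ih (G.erase v) A (hc v hv)
              (fun b hb => Finset.mem_erase.2 ⟨by rintro rfl; exact hvA hb, hA hb⟩)
              (fun b hb => Finset.mem_erase.2 ⟨by rintro rfl; exact hvB hb, hB hb⟩) hAB]
            rw [ha, if_neg hvA, if_pos (by simp [hv, hvA, hvB])]
            simp
      simp only [avg]
      rw [Finset.sum_congr rfl key, Finset.sum_add_distrib, ← Finset.sum_filter,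
        ← Finset.sum_filter, Finset.sum_const, Finset.sum_const]
      have h2 : (G.filter (· ∈ A)).card = a + 1 := by
        rw [← ha]
        congr 1
        ext v
        simp only [Finset.mem_filter]
        exact ⟨fun h => h.2, fun h => ⟨hA h, h⟩⟩
      have h3 : (G.filter (· ∈ G \ (A ∪ B))).card + (a + 1 + B.card) = n + 1 := by
        have h4 : G.filter (· ∈ G \ (A ∪ B)) = G \ (A ∪ B) := by
          ext v
          simp only [Finset.mem_filter, Finset.mem_sdiff]
          tauto
        rw [h4, ← ha, ← Finset.card_union_of_disjoint hAB, ← hG]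
        exact Finset.card_sdiff_add_card_eq_card (Finset.union_subset hA hB)
      rw [h2, ha, nsmul_eq_mul, nsmul_eq_mul]
      have h5 : (((G.filter (· ∈ G \ (A ∪ B))).card : ℕ) : ℚ) = (n : ℚ) + 1 - (a + 1 + B.card) := by
        have : (((G.filter (· ∈ G \ (A ∪ B))).card + (a + 1 + B.card) : ℕ) : ℚ) = ((n + 1 : ℕ) : ℚ) := by
          rw [h3]
        push_cast at this ⊢
        linarith
      rw [h5, show a + 1 + B.card = (a + B.card) + 1 by ring, Nat.factorial_succ,
        Nat.factorial_succ]
      have h6 := fact_ne (a + B.card)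
      push_cast
      have h7 : ((a : ℚ) + B.card + 1) ≠ 0 := by positivity
      have h8 : ((n : ℚ) + 1) ≠ 0 := by positivity
      field_simp
      ring

lemma avg_F (n : ℕ) (G A B : Finset V) (t x : V) (hG : G.card = n) (hA : A ⊆ G) (hB : B ⊆ G)
    (ht : t ∈ G) (hx : x ∈ G) (hAB : Disjoint A B) (htA : t ∉ A) (htB : t ∉ B) (hxA : x ∉ A)
    (hxB : x ∉ B) (htx : t ≠ x) :
    avg n G (ind (F A t x B)) =
      (A.card.factorial : ℚ) * B.card.factorial / (A.card + B.card + 2).factorial := by
  induction n generalizing G A with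
  | zero =>
    have hG' : G = ∅ := Finset.card_eq_zero.1 hG
    rw [hG'] at ht
    simp at ht
  | succ n ih =>
    have hc : ∀ v ∈ G, (G.erase v).card = n := fun v hv => by
      rw [Finset.card_erase_of_mem hv, hG]; rfl
    -- vertices outside
    have hout : ∀ v ∈ G, v ∉ A → v ∉ B → v ≠ t → v ≠ x →
        avg n (G.erase v) (fun l => ind (F A t x B) (v :: l)) =
        (A.card.factorial : ℚ) * B.card.factorial / (A.card + B.card + 2).factorial := by
      intro v hv hvA hvB hvt hvx
      have h1 : (fun l => ind (F A t x B) (v :: l)) = ind (F A t x B) := by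
        funext l
        refine ind_congr _ _ ?_
        unfold F
        rw [idx_ne hvt, idx_ne hvx]
        refine and_congr (forall₂_congr fun a ha => ?_) (and_congr (by omega)
          (forall₂_congr fun b hb => ?_))
        · have : v ≠ a := by rintro rfl; exact hvA ha
          rw [idx_ne this]; omega
        · have : v ≠ b := by rintro rfl; exact hvB hb
          rw [idx_ne this]; omega
      rw [h1, ih (G.erase v) A (hc v hv)
        (fun b hb => Finset.mem_erase.2 ⟨by rintro rfl; exact hvA hb, hA hb⟩)
        (fun b hb => Finset.mem_erase.2 ⟨by rintro rfl; exact hvB hb, hB hb⟩)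
        (Finset.mem_erase.2 ⟨hvt.symm, ht⟩) (Finset.mem_erase.2 ⟨hvx.symm, hx⟩) hAB htA hxA]
    have hbadx : avg n (G.erase x) (fun l => ind (F A t x B) (x :: l)) = 0 := by
      have h1 : (fun l => ind (F A t x B) (x :: l)) = fun _ => (0 : ℚ) := by
        funext l
        unfold ind
        rw [if_neg]
        rintro ⟨-, h, -⟩
        rw [idx_self] at h
        omega
      rw [h1, avg_const _ _ (hc x hx)]
    have hbadB : ∀ v ∈ B, avg n (G.erase v) (fun l => ind (F A t x B) (v :: l)) = 0 := by
      intro v hv
      have h1 : (fun l => ind (F A t x B) (v :: l)) = fun _ => (0 : ℚ) := by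
        funext l
        unfold ind
        rw [if_neg]
        rintro ⟨-, -, h⟩
        have := h v hv
        rw [idx_self] at this
        omega
      rw [h1, avg_const _ _ (hc v (hB hv))]
    set W : Finset V := insert t (insert x (A ∪ B)) with hW
    have hWG : W ⊆ G := by
      rw [hW]
      refine Finset.insert_subset ht (Finset.insert_subset hx (Finset.union_subset hA hB))
    have hWc : W.card = A.card + B.card + 2 := by
      rw [hW, Finset.card_insert_of_notMem (by simp [htx, htA, htB]),
        Finset.card_insert_of_notMem (by simp [hxA, hxB]), Finset.card_union_of_disjoint hAB]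
    have h3 : ((G \ W).card : ℚ) = (n : ℚ) + 1 - (A.card + B.card + 2) := by
      have : (G \ W).card + W.card = G.card := Finset.card_sdiff_add_card_eq_card hWG
      rw [hWc, hG] at this
      have : (((G \ W).card + (A.card + B.card + 2) : ℕ) : ℚ) = ((n + 1 : ℕ) : ℚ) := by rw [this]
      push_cast at this ⊢
      linarith
    simp only [avg]
    have hsplit : ∑ v ∈ G, avg n (G.erase v) (fun l => ind (F A t x B) (v :: l)) =
        ∑ v ∈ G \ W, avg n (G.erase v) (fun l => ind (F A t x B) (v :: l)) +
        (avg n (G.erase t) (fun l => ind (F A t x B) (t :: l)) +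
          ∑ v ∈ A, avg n (G.erase v) (fun l => ind (F A t x B) (v :: l))) := by
      rw [← Finset.sum_sdiff hWG, hW, Finset.sum_insert (by simp [htx, htA, htB]),
        Finset.sum_insert (by simp [hxA, hxB]), Finset.sum_union hAB, hbadx,
        Finset.sum_eq_zero hbadB]
      ring
    rw [hsplit, Finset.sum_congr rfl (fun v hv => hout v (Finset.mem_sdiff.1 hv).1
      (fun h => (Finset.mem_sdiff.1 hv).2 (by rw [hW]; simp [h]))
      (fun h => (Finset.mem_sdiff.1 hv).2 (by rw [hW]; simp [h]))
      (fun h => (Finset.mem_sdiff.1 hv).2 (by rw [hW]; simp [h]))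
      (fun h => (Finset.mem_sdiff.1 hv).2 (by rw [hW]; simp [h]))), Finset.sum_const,
      nsmul_eq_mul, h3]
    rcases A.eq_empty_or_nonempty with rfl | ⟨a₀, ha₀⟩
    · -- `t` comes first
      have h1 : (fun l => ind (F (∅ : Finset V) t x B) (t :: l)) = ind (E {x} B) := by
        funext l
        refine ind_congr _ _ ?_
        unfold F E
        rw [idx_self, idx_ne htx]
        constructor
        · rintro ⟨-, -, h⟩ a ha b hb
          rw [Finset.mem_singleton.1 ha]
          have htb : t ≠ b := by rintro rfl; exact htB hb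
          have := h b hb
          rw [idx_ne htb] at this
          omega
        · intro h
          refine ⟨by simp, by omega, fun b hb => ?_⟩
          have htb : t ≠ b := by rintro rfl; exact htB hb
          rw [idx_ne htb]
          have := h x (by simp) b hb
          omega
      rw [h1, avg_E n (G.erase t) {x} B (hc t ht)
        (by
          intro y hy
          rw [Finset.mem_singleton.1 hy]
          exact Finset.mem_erase.2 ⟨htx.symm, hx⟩)
        (fun b hb => Finset.mem_erase.2 ⟨by rintro rfl; exact htB hb, hB hb⟩)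
        (Finset.disjoint_singleton_left.2 hxB)]
      simp only [Finset.card_empty, Finset.card_singleton, Nat.factorial_zero, Nat.factorial_one,
        Finset.sum_empty, add_zero, Nat.cast_one, one_mul, Nat.cast_zero, zero_add]
      rw [show B.card + 2 = (B.card + 1) + 1 by ring, Nat.factorial_succ (B.card + 1),
        add_comm 1 B.card]
      have h6 := fact_ne (B.card + 1)
      push_cast
      have h7 : ((B.card : ℚ) + 1 + 1) ≠ 0 := by positivity
      have h8 : ((n : ℚ) + 1) ≠ 0 := by positivity
      field_simp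
      ring
    · obtain ⟨a, ha⟩ : ∃ a, A.card = a + 1 := ⟨A.card - 1, by
        have := Finset.card_pos.2 ⟨a₀, ha₀⟩; omega⟩
      have hbadt : avg n (G.erase t) (fun l => ind (F A t x B) (t :: l)) = 0 := by
        have h1 : (fun l => ind (F A t x B) (t :: l)) = fun _ => (0 : ℚ) := by
          funext l
          unfold ind
          rw [if_neg]
          rintro ⟨h, -, -⟩
          have := h a₀ ha₀
          rw [idx_self] at this
          omega
        rw [h1, avg_const _ _ (hc t ht)]
      have hin : ∀ v ∈ A, avg n (G.erase v) (fun l => ind (F A t x B) (v :: l)) =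
          (a.factorial : ℚ) * B.card.factorial / (a + B.card + 2).factorial := by
        intro v hv
        have hvt : v ≠ t := by rintro rfl; exact htA hv
        have hvx : v ≠ x := by rintro rfl; exact hxA hv
        have hvB : v ∉ B := Finset.disjoint_left.1 hAB hv
        have h1 : (fun l => ind (F A t x B) (v :: l)) = ind (F (A.erase v) t x B) := by
          funext l
          refine ind_congr _ _ ?_
          unfold F
          rw [idx_ne hvt, idx_ne hvx]
          refine and_congr ?_ (and_congr (by omega) (forall₂_congr fun b hb => ?_))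
          · constructor
            · intro h c hc'
              have := h c (Finset.mem_of_mem_erase hc')
              rw [idx_ne (Finset.ne_of_mem_erase hc').symm] at this
              omega
            · intro h c hc'
              by_cases hcv : c = v
              · rw [hcv, idx_self]; omega
              · rw [idx_ne (Ne.symm hcv)]
                have := h c (Finset.mem_erase.2 ⟨hcv, hc'⟩)
                omega
          · have : v ≠ b := by rintro rfl; exact hvB hb
            rw [idx_ne this]; omega
        rw [h1, ih (G.erase v) (A.erase v) (hc v (hA hv)) (Finset.erase_subset_erase v hA)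
          (fun b hb => Finset.mem_erase.2 ⟨by rintro rfl; exact hvB hb, hB hb⟩)
          (Finset.mem_erase.2 ⟨hvt.symm, ht⟩) (Finset.mem_erase.2 ⟨hvx.symm, hx⟩)
          (hAB.mono_left (Finset.erase_subset _ _)) (fun h => htA (Finset.mem_of_mem_erase h))
          (fun h => hxA (Finset.mem_of_mem_erase h)), Finset.card_erase_of_mem hv, ha]
        simp
      rw [hbadt, Finset.sum_congr rfl hin, Finset.sum_const, nsmul_eq_mul, ha,
        show a + 1 + B.card + 2 = (a + B.card + 2) + 1 by ring, Nat.factorial_succ (a + B.card + 2),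
        Nat.factorial_succ a]
      have h6 := fact_ne (a + B.card + 2)
      push_cast
      have h7 : ((a : ℚ) + B.card + 2 + 1) ≠ 0 := by positivity
      have h8 : ((n : ℚ) + 1) ≠ 0 := by positivity
      field_simp
      ring

/-! ### the transversals -/

lemma dominated_card (H : Finset (Finset V)) (S : Finset V)
    (h : ∀ v ∈ S, ∃ e ∈ H, e ∩ S = {v}) : S.card ≤ phi H := by
  classical
  unfold phi
  refine Finset.le_sup (f := Finset.card) (Finset.mem_filter.2 ⟨Finset.mem_univ _, ?_⟩)
  intro v hv
  have hvS : v ∈ S := by simpa using hv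
  obtain ⟨e, he, h1⟩ := h v hvS
  have hve : v ∈ e := (Finset.mem_inter.1 (h1 ▸ Finset.mem_singleton_self v)).1
  refine ⟨e, he, hve, fun w hw => ?_⟩
  rw [Finset.mem_compl]
  intro hwS
  have : w ∈ e ∩ S := Finset.mem_inter.2 ⟨Finset.mem_of_mem_erase hw, hwS⟩
  rw [h1, Finset.mem_singleton] at this
  exact Finset.ne_of_mem_erase hw this

lemma exists_T {H : Finset (Finset V)} {r : ℕ} (hH : ∀ e ∈ H, e.card = r) {e : Finset V}
    (he : e ∈ H) : ∃ T : Finset V, Disjoint e T ∧ (∀ f ∈ H, f ≠ e → (f ∩ T).Nonempty) ∧
      ∀ t ∈ T, ∃ f ∈ H, f ∩ T = {t} := by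
  classical
  obtain ⟨T, hT, hmin⟩ := Finset.exists_min_image
    (univ.filter fun T : Finset V => Disjoint e T ∧ ∀ f ∈ H, f ≠ e → (f ∩ T).Nonempty)
    Finset.card ⟨eᶜ, by
      refine Finset.mem_filter.2 ⟨Finset.mem_univ _, disjoint_compl_right, fun f hf hfe => ?_⟩
      by_contra hne
      rw [Finset.not_nonempty_iff_eq_empty] at hne
      have hsub : f ⊆ e := by
        intro v hv
        by_contra hve
        have : v ∈ f ∩ eᶜ := Finset.mem_inter.2 ⟨hv, Finset.mem_compl.2 hve⟩
        rw [hne] at this
        simp at this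
      exact hfe (Finset.eq_of_subset_of_card_le hsub (by rw [hH f hf, hH e he]))⟩
  rw [Finset.mem_filter] at hT
  obtain ⟨-, hT1, hT2⟩ := hT
  refine ⟨T, hT1, hT2, fun t ht => ?_⟩
  by_contra hcon
  push Not at hcon
  have h1 : T.erase t ∈ univ.filter fun T : Finset V =>
      Disjoint e T ∧ ∀ f ∈ H, f ≠ e → (f ∩ T).Nonempty := by
    refine Finset.mem_filter.2 ⟨Finset.mem_univ _, hT1.mono_right (Finset.erase_subset _ _),
      fun f hf hfe => ?_⟩
    by_contra hne
    rw [Finset.not_nonempty_iff_eq_empty] at hne
    refine hcon f hf ?_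
    have h2 := hT2 f hf hfe
    ext u
    rw [Finset.mem_singleton]
    have h3 : ∀ u ∈ f ∩ T, u = t := by
      intro u hu
      by_contra hut
      have : u ∈ f ∩ T.erase t := Finset.mem_inter.2 ⟨(Finset.mem_inter.1 hu).1,
        Finset.mem_erase.2 ⟨hut, (Finset.mem_inter.1 hu).2⟩⟩
      rw [hne] at this
      simp at this
    constructor
    · exact h3 u
    · rintro rfl
      obtain ⟨w, hw⟩ := h2
      rw [← h3 w hw]
      exact hw
  have h4 := hmin _ h1
  rw [Finset.card_erase_of_mem ht] at h4
  have := Finset.card_pos.2 ⟨t, ht⟩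
  omega

lemma exists_t {H : Finset (Finset V)} {s : ℕ} (hphi : phi H ≤ s) {e T : Finset V} (he : e ∈ H)
    (heT : Disjoint e T) (hT : ∀ t ∈ T, ∃ f ∈ H, f ∩ T = {t}) (hc : T.card = s) {x : V}
    (hx : x ∈ e) : ∃ t ∈ T, ∀ f ∈ H, f ∩ T = {t} → x ∈ f := by
  by_contra hcon
  push Not at hcon
  have hxT : x ∉ T := Finset.disjoint_left.1 heT hx
  have h1 : (insert x T).card ≤ phi H := by
    apply dominated_card
    intro v hv
    rcases Finset.mem_insert.1 hv with rfl | hv
    · refine ⟨e, he, ?_⟩
      rw [Finset.inter_insert_of_mem hx, Finset.disjoint_iff_inter_eq_empty.1 heT]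
      rfl
    · obtain ⟨f, hf, h2, h3⟩ := hcon v hv
      exact ⟨f, hf, by rw [Finset.inter_insert_of_notMem h3, h2]⟩
  rw [Finset.card_insert_of_notMem hxT] at h1
  omega

/-! ### the events are disjoint -/

lemma claim1 {e f Te Tf : Finset V} {x y t t' : V} (pos : V → ℕ)
    (he1 : ∀ a ∈ e, pos a ≤ pos x) (hf1 : ∀ a ∈ f, pos a ≤ pos y)
    (he3 : ∀ b ∈ Te, b = t ∨ pos x < pos b) (hf3 : ∀ b ∈ Tf, b = t' ∨ pos y < pos b)
    (hne : (f ∩ Te).Nonempty) (hprop : f ∩ Te = {t} → x ∈ f) : ∀ v ∈ e ∩ Tf, v = t' := by
  intro v hv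
  obtain ⟨hve, hvT⟩ := Finset.mem_inter.1 hv
  rcases hf3 v hvT with h | h
  · exact h
  exfalso
  have h1 := he1 v hve
  have h2 : ∀ u ∈ f ∩ Te, u = t := by
    intro u hu
    obtain ⟨huf, huT⟩ := Finset.mem_inter.1 hu
    have h3 := hf1 u huf
    rcases he3 u huT with h4 | h4
    · exact h4
    · omega
  have h5 : f ∩ Te = {t} := by
    ext u
    rw [Finset.mem_singleton]
    constructor
    · exact h2 u
    · rintro rfl
      obtain ⟨w, hw⟩ := hne
      rw [← h2 w hw]
      exact hw
  have h6 := hf1 x (hprop h5)
  omega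

lemma eq_singleton_of {A : Finset V} {t : V} (hne : A.Nonempty) (h : ∀ u ∈ A, u = t) : A = {t} := by
  ext u
  rw [Finset.mem_singleton]
  constructor
  · exact h u
  · rintro rfl
    obtain ⟨w, hw⟩ := hne
    rw [← h w hw]
    exact hw

/-- The events: `e` before `T e`; and, for `x ∈ e` when `|T e| = s`, the order
`e \ {x}, t, x, T e \ {t}`. -/
def P (s : ℕ) (T : Finset V → Finset V) (t : Finset V → V → V) :
    Finset V × Option V → List V → Prop
  | (e, none), l => E e (T e) l
  | (e, some x), l => (x ∈ e ∧ (T e).card = s) ∧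
      F (e.erase x) (t e x) x ((T e).erase (t e x)) l

lemma F_le {e T : Finset V} {t x : V} {l : List V} (hx : x ∈ e)
    (h : F (e.erase x) t x (T.erase t) l) :
    (∀ a ∈ e, l.idxOf a ≤ l.idxOf x) ∧ ∀ b ∈ T, b = t ∨ l.idxOf x < l.idxOf b := by
  obtain ⟨h1, h2, h3⟩ := h
  constructor
  · intro a ha
    by_cases hax : a = x
    · rw [hax]
    · have := h1 a (Finset.mem_erase.2 ⟨hax, ha⟩)
      omega
  · intro b hb
    by_cases hbt : b = t
    · exact Or.inl hbt
    · exact Or.inr (h3 b (Finset.mem_erase.2 ⟨hbt, hb⟩))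

lemma exclusive {H : Finset (Finset V)} {s : ℕ} {T : Finset V → Finset V}
    {t : Finset V → V → V} (hT1 : ∀ e ∈ H, Disjoint e (T e))
    (hT2 : ∀ e ∈ H, ∀ f ∈ H, f ≠ e → (f ∩ T e).Nonempty)
    (ht1 : ∀ e ∈ H, (T e).card = s → ∀ x ∈ e, t e x ∈ T e)
    (ht2 : ∀ e ∈ H, (T e).card = s → ∀ x ∈ e, ∀ f ∈ H, f ∩ T e = {t e x} → x ∈ f)
    {l : List V} (hl : ∀ x, x ∈ l) {j k : Finset V × Option V} (hj : j.1 ∈ H) (hk : k.1 ∈ H)
    (hPj : P s T t j l) (hPk : P s T t k l) : j = k := by
  have hNS : ∀ (e f : Finset V) (y : V), e ∈ H → f ∈ H → P s T t (e, none) l →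
      P s T t (f, some y) l → False := by
    intro e f y he hf h1 h2
    simp only [P] at h1 h2
    obtain ⟨⟨hy, hc⟩, h2⟩ := h2
    obtain ⟨h3, h4⟩ := F_le hy h2
    by_cases hef : e = f
    · subst hef
      have := h1 y hy (t e y) (ht1 e he hc y hy)
      have := h2.2.1
      omega
    · obtain ⟨u, hu⟩ := hT2 e he f hf (Ne.symm hef)
      obtain ⟨huf, huT⟩ := Finset.mem_inter.1 hu
      have h5 : ∀ v ∈ e ∩ T f, v = t f y := by
        intro v hv
        obtain ⟨hve, hvT⟩ := Finset.mem_inter.1 hv
        rcases h4 v hvT with h | h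
        · exact h
        · have := h1 v hve u huT
          have := h3 u huf
          omega
      have h6 : e ∩ T f = {t f y} := eq_singleton_of (hT2 f hf e he hef) h5
      have hye : y ∈ e := ht2 f hf hc y hy e he h6
      have hte : t f y ∈ e := (Finset.mem_inter.1 (h6 ▸ Finset.mem_singleton_self (t f y))).1
      by_cases huy : u = y
      · rw [huy] at huT
        exact Finset.disjoint_left.1 (hT1 e he) hye huT
      · have := h2.1 u (Finset.mem_erase.2 ⟨huy, huf⟩)
        have := h1 _ hte u huT
        omega
  obtain ⟨e, o⟩ := j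
  obtain ⟨f, o'⟩ := k
  simp only at hj hk
  rcases o with _ | x <;> rcases o' with _ | y
  · by_cases hef : e = f
    · rw [hef]
    · exfalso
      obtain ⟨u, hu⟩ := hT2 e hj f hk (Ne.symm hef)
      obtain ⟨v, hv⟩ := hT2 f hk e hj hef
      obtain ⟨huf, huT⟩ := Finset.mem_inter.1 hu
      obtain ⟨hve, hvT⟩ := Finset.mem_inter.1 hv
      simp only [P] at hPj hPk
      have := hPj v hve u huT
      have := hPk u huf v hvT
      omega
  · exact (hNS e f y hj hk hPj hPk).elim
  · exact (hNS f e x hk hj hPk hPj).elim
  · simp only [P] at hPj hPk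
    obtain ⟨⟨hx, hc⟩, h1⟩ := hPj
    obtain ⟨⟨hy, hd⟩, h2⟩ := hPk
    obtain ⟨h3, h4⟩ := F_le hx h1
    obtain ⟨h5, h6⟩ := F_le hy h2
    by_cases hef : e = f
    · subst hef
      by_cases hxy : x = y
      · rw [hxy]
      · exfalso
        have := h1.1 y (Finset.mem_erase.2 ⟨Ne.symm hxy, hy⟩)
        have := h1.2.1
        have := h2.1 x (Finset.mem_erase.2 ⟨hxy, hx⟩)
        have := h2.2.1
        omega
    · exfalso
      have hne1 := hT2 e hj f hk (Ne.symm hef)
      have hne2 := hT2 f hk e hj hef
      have h7 := claim1 (fun v => l.idxOf v) h3 h5 h4 h6 hne1 (ht2 e hj hc x hx f hk)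
      have h8 := claim1 (fun v => l.idxOf v) h5 h3 h6 h4 hne2 (ht2 f hk hd y hy e hj)
      have h9 := eq_singleton_of hne2 h7
      have h10 := eq_singleton_of hne1 h8
      have hye : y ∈ e := ht2 f hk hd y hy e hj h9
      have hxf : x ∈ f := ht2 e hj hc x hx f hk h10
      have hxy : x = y := by
        have h11 := h3 y hye
        have h12 := h5 x hxf
        exact (List.idxOf_inj (hl x)).1 (le_antisymm h12 h11)
      have htf : t e x ∈ f := (Finset.mem_inter.1 (h10 ▸ Finset.mem_singleton_self (t e x))).1
      have hte : t f y ∈ e := (Finset.mem_inter.1 (h9 ▸ Finset.mem_singleton_self (t f y))).1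
      have h13 := h1.2.1
      have h14 := h2.2.1
      have h15 : t e x ≠ y := by
        intro h
        rw [h, hxy] at h13
        omega
      have h16 : t f y ≠ x := by
        intro h
        rw [h, hxy] at h14
        omega
      have := h2.1 _ (Finset.mem_erase.2 ⟨h15, htf⟩)
      have := h1.1 _ (Finset.mem_erase.2 ⟨h16, hte⟩)
      omega

/-! ### the bound -/

lemma fact_ineq (r k s' : ℕ) (hr : 1 ≤ r) (hk : k ≤ s') :
    s'.factorial * (s' + 2) * (r + k).factorial ≤ k.factorial * (r + s' + 1).factorial := by
  have h1 : s'.factorial * (r + k).factorial ≤ k.factorial * (r + s').factorial := by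
    have h2 := Nat.add_choose_mul_factorial_mul_factorial r k
    have h3 := Nat.add_choose_mul_factorial_mul_factorial r s'
    have h4 : (r + k).choose k ≤ (r + s').choose s' := by
      rw [← Nat.choose_symm_add, ← Nat.choose_symm_add]
      exact Nat.choose_le_choose r (by omega)
    calc s'.factorial * (r + k).factorial
        = (r + k).choose k * (s'.factorial * r.factorial * k.factorial) := by rw [← h2]; ring
      _ ≤ (r + s').choose s' * (s'.factorial * r.factorial * k.factorial) :=
          Nat.mul_le_mul_right _ h4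
      _ = k.factorial * (r + s').factorial := by rw [← h3]; ring
  rw [Nat.factorial_succ]
  calc s'.factorial * (s' + 2) * (r + k).factorial
      = (s' + 2) * (s'.factorial * (r + k).factorial) := by ring
    _ ≤ (r + s' + 1) * (k.factorial * (r + s').factorial) :=
        Nat.mul_le_mul (by omega) h1
    _ = k.factorial * ((r + s' + 1) * (r + s').factorial) := by ring

theorem bound {r s : ℕ} (hr : 1 ≤ r) (hs : 1 ≤ s) (H : Finset (Finset V))
    (hH : ∀ e ∈ H, e.card = r) (hphi : phi H ≤ s) :
    (s + 1) * H.card ≤ s * (r + s).choose r := by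
  classical
  have hex : ∀ e : Finset V, ∃ T : Finset V, e ∈ H → Disjoint e T ∧
      (∀ f ∈ H, f ≠ e → (f ∩ T).Nonempty) ∧ ∀ t ∈ T, ∃ f ∈ H, f ∩ T = {t} := by
    intro e
    by_cases he : e ∈ H
    · obtain ⟨T, hT⟩ := exists_T hH he
      exact ⟨T, fun _ => hT⟩
    · exact ⟨∅, fun h => absurd h he⟩
  choose T hT using hex
  have hext : ∀ (e : Finset V) (x : V), ∃ t : V, e ∈ H → (T e).card = s → x ∈ e →
      t ∈ T e ∧ ∀ f ∈ H, f ∩ T e = {t} → x ∈ f := by
    intro e x
    by_cases he : e ∈ H ∧ (T e).card = s ∧ x ∈ e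
    · obtain ⟨t, ht⟩ := exists_t hphi he.1 (hT e he.1).1 (hT e he.1).2.2 he.2.1 he.2.2
      exact ⟨t, fun _ _ _ => ht⟩
    · exact ⟨x, fun h1 h2 h3 => absurd ⟨h1, h2, h3⟩ he⟩
  choose t ht using hext
  have hTs : ∀ e ∈ H, (T e).card ≤ s := fun e he =>
    (dominated_card H (T e) (hT e he).2.2).trans hphi
  set n := Fintype.card V with hn
  have hncard : (univ : Finset V).card = n := Finset.card_univ
  -- the sum of the probabilities is at most one
  have hle : ∑ j ∈ H ×ˢ (univ : Finset (Option V)), avg n univ (ind (P s T t j)) ≤ 1 := by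
    rw [← avg_sum, ← avg_const n (univ : Finset V) hncard 1]
    refine avg_mono n univ hncard _ _ fun l hl hl' => ?_
    have h1 : ∑ j ∈ H ×ˢ (univ : Finset (Option V)), ind (P s T t j) l =
        (((H ×ˢ (univ : Finset (Option V))).filter fun j => P s T t j l).card : ℚ) := by
      unfold ind
      rw [Finset.sum_boole]
    rw [h1]
    have h2 : ((H ×ˢ (univ : Finset (Option V))).filter fun j => P s T t j l).card ≤ 1 := by
      refine Finset.card_le_one.2 fun j hj k hk => ?_
      rw [Finset.mem_filter, Finset.mem_product] at hj hk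
      exact exclusive (fun e he => (hT e he).1) (fun e he f hf h => (hT e he).2.1 f hf h)
        (fun e he hc x hx => (ht e x he hc hx).1) (fun e he hc x hx => (ht e x he hc hx).2)
        (fun x => (hl' x).2 (Finset.mem_univ x)) hj.1.1 hk.1.1 hj.2 hk.2
    exact_mod_cast h2
  rw [Finset.sum_product] at hle
  obtain ⟨s', rfl⟩ : ∃ s', s = s' + 1 := ⟨s - 1, by omega⟩
  obtain ⟨r', rfl⟩ : ∃ r', r = r' + 1 := ⟨r - 1, by omega⟩
  set c : ℚ := ((r' + 1).factorial : ℚ) * s'.factorial * (s' + 2) / (r' + 1 + s' + 1).factorial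
    with hc
  have hnone : ∀ e ∈ H, avg n univ (ind (P (s' + 1) T t (e, none))) =
      ((r' + 1).factorial : ℚ) * (T e).card.factorial / (r' + 1 + (T e).card).factorial := by
    intro e he
    have h1 : P (s' + 1) T t (e, none) = E e (T e) := by
      funext l
      rfl
    rw [h1, avg_E n univ e (T e) hncard (Finset.subset_univ _) (Finset.subset_univ _) (hT e he).1,
      hH e he]
  have hsome : ∀ e ∈ H, ∀ x : V, avg n univ (ind (P (s' + 1) T t (e, some x))) =
      if x ∈ e ∧ (T e).card = s' + 1 then
        (r'.factorial : ℚ) * s'.factorial / (r' + s' + 2).factorial else 0 := by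
    intro e he x
    split_ifs with h
    · have h1 : P (s' + 1) T t (e, some x) =
          F (e.erase x) (t e x) x ((T e).erase (t e x)) := by
        funext l
        simp only [P, eq_iff_iff]
        exact ⟨fun h' => h'.2, fun h' => ⟨h, h'⟩⟩
      have htT := (ht e x he h.2 h.1).1
      have hxT : x ∉ T e := Finset.disjoint_left.1 (hT e he).1 h.1
      have hte : t e x ∉ e := Finset.disjoint_right.1 (hT e he).1 htT
      rw [h1, avg_F n univ _ _ _ _ hncard (Finset.subset_univ _) (Finset.subset_univ _)
        (Finset.mem_univ _) (Finset.mem_univ _)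
        (((hT e he).1.mono_left (Finset.erase_subset _ _)).mono_right (Finset.erase_subset _ _))
        (fun h' => hte (Finset.mem_of_mem_erase h')) (Finset.notMem_erase _ _)
        (Finset.notMem_erase _ _) (fun h' => hxT (Finset.mem_of_mem_erase h'))
        (by intro h'; exact hxT (h' ▸ htT)), Finset.card_erase_of_mem h.1,
        Finset.card_erase_of_mem htT, hH e he, h.2]
      simp
    · have h1 : ind (P (s' + 1) T t (e, some x)) = fun _ => (0 : ℚ) := by
        funext l
        unfold ind
        rw [if_neg]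
        intro h'
        exact h h'.1
      rw [h1, avg_const n _ hncard]
  have hmain : ∀ e ∈ H, c ≤ ∑ o : Option V, avg n univ (ind (P (s' + 1) T t (e, o))) := by
    intro e he
    rw [Fintype.sum_option, hnone e he, Finset.sum_congr rfl fun x _ => hsome e he x]
    by_cases hce : (T e).card = s' + 1
    · have h1 : ∑ x : V, (if x ∈ e ∧ (T e).card = s' + 1 then
          (r'.factorial : ℚ) * s'.factorial / (r' + s' + 2).factorial else 0) =
          (r' + 1) * ((r'.factorial : ℚ) * s'.factorial / (r' + s' + 2).factorial) := by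
        rw [← Finset.sum_filter, Finset.sum_const, nsmul_eq_mul]
        have : (univ.filter fun x : V => x ∈ e ∧ (T e).card = s' + 1) = e := by
          ext x
          simp [hce]
        rw [this, hH e he]
        push_cast
        ring
      rw [h1, hce, hc, show r' + 1 + (s' + 1) = r' + s' + 2 by ring,
        show r' + 1 + s' + 1 = r' + s' + 2 by ring]
      rw [Nat.factorial_succ s', Nat.factorial_succ r']
      have h6 := fact_ne (r' + s' + 2)
      push_cast
      apply le_of_eq
      field_simp
      ring
    · have hk : (T e).card ≤ s' := by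
        have := hTs e he
        omega
      have h1 := fact_ineq (r' + 1) (T e).card s' (by omega) hk
      have h2 : (s'.factorial : ℚ) * (s' + 2) * (r' + 1 + (T e).card).factorial ≤
          (T e).card.factorial * (r' + 1 + s' + 1).factorial := by exact_mod_cast h1
      have h3 : c ≤ ((r' + 1).factorial : ℚ) * (T e).card.factorial /
          (r' + 1 + (T e).card).factorial := by
        rw [hc, div_le_div_iff₀ (by positivity) (by positivity)]
        have h4 : (0 : ℚ) ≤ (r' + 1).factorial := by positivity
        nlinarith [mul_le_mul_of_nonneg_left h2 h4]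
      refine h3.trans (le_add_of_nonneg_right (Finset.sum_nonneg fun x _ => ?_))
      split_ifs <;> positivity
  have htot : (H.card : ℚ) * c ≤ 1 := by
    refine le_trans ?_ hle
    rw [← nsmul_eq_mul, ← Finset.sum_const]
    exact Finset.sum_le_sum hmain
  have hch := Nat.add_choose_mul_factorial_mul_factorial (r' + 1) (s' + 1)
  rw [hc, mul_div_assoc', div_le_one (by positivity)] at htot
  have h7 : H.card * ((r' + 1).factorial * s'.factorial * (s' + 2)) ≤
      (r' + 1 + (s' + 1)).factorial := by
    have : (H.card : ℚ) * (((r' + 1).factorial : ℚ) * s'.factorial * (s' + 2)) ≤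
        (r' + 1 + (s' + 1)).factorial := by
      rw [show r' + 1 + (s' + 1) = r' + 1 + s' + 1 by ring]
      exact htot
    exact_mod_cast this
  rw [← hch, Nat.factorial_succ s'] at h7
  have h8 : 0 < (r' + 1).factorial * s'.factorial := by positivity
  rw [Nat.choose_symm_add]
  refine Nat.le_of_mul_le_mul_right ?_ h8
  calc (s' + 1 + 1) * H.card * ((r' + 1).factorial * s'.factorial)
      = H.card * ((r' + 1).factorial * s'.factorial * (s' + 2)) := by ring
    _ ≤ _ := h7
    _ = (s' + 1) * (r' + 1 + (s' + 1)).choose (s' + 1) * ((r' + 1).factorial * s'.factorial) := by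
        ring

/-! ### Steiner systems -/

/-- `B` is a Steiner system `S(s + r, r, r - 1)` on `Fin (s + r)`: a family of `r`-sets such that
each `(r - 1)`-set lies in exactly one of them. -/
def IsSteiner (r s : ℕ) (B : Finset (Finset (Fin (s + r)))) : Prop :=
  (∀ b ∈ B, b.card = r) ∧ ∀ t : Finset (Fin (s + r)), t.card + 1 = r → ∃! b, b ∈ B ∧ t ⊆ b

lemma steiner_card {r s : ℕ} (hr : 1 ≤ r) {B : Finset (Finset (Fin (s + r)))}
    (hB : IsSteiner r s B) : B.card * r = (s + r).choose (r - 1) := by
  classical
  have h1 : ∑ b ∈ B, (b.powersetCard (r - 1)).card = B.card * r := by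
    rw [Finset.sum_congr rfl fun b hb => by
      rw [Finset.card_powersetCard, hB.1 b hb], Finset.sum_const, smul_eq_mul]
    congr 1
    obtain ⟨r', rfl⟩ : ∃ r', r = r' + 1 := ⟨r - 1, by omega⟩
    simp
  rw [← h1]
  have h2 : ∀ b ∈ B, (b.powersetCard (r - 1)).card =
      ∑ t ∈ (univ : Finset (Fin (s + r))).powersetCard (r - 1), if t ⊆ b then 1 else 0 := by
    intro b _
    rw [← Finset.sum_filter, Finset.sum_const, smul_eq_mul, mul_one]
    congr 1
    ext t
    simp only [Finset.mem_powersetCard, Finset.mem_filter, Finset.subset_univ, true_and]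
    exact and_comm
  rw [Finset.sum_congr rfl h2, Finset.sum_comm]
  have h3 : ∀ t ∈ (univ : Finset (Fin (s + r))).powersetCard (r - 1),
      ∑ b ∈ B, (if t ⊆ b then 1 else 0) = 1 := by
    intro t ht
    obtain ⟨b, hb, hb'⟩ := hB.2 t (by rw [(Finset.mem_powersetCard.1 ht).2]; omega)
    rw [← Finset.sum_filter, Finset.sum_const, smul_eq_mul, mul_one, Finset.card_eq_one]
    refine ⟨b, ?_⟩
    ext b'
    rw [Finset.mem_filter, Finset.mem_singleton]
    exact ⟨fun h => hb' b' h, fun h => h ▸ hb⟩
  rw [Finset.sum_congr rfl h3, Finset.sum_const, smul_eq_mul, mul_one, Finset.card_powersetCard,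
    Finset.card_univ, Fintype.card_fin]

lemma phi_le_of {H : Finset (Finset V)} {s : ℕ}
    (h : ∀ S : Finset V, IsDominating H Sᶜ → S.card ≤ s) : phi H ≤ s := by
  classical
  unfold phi
  refine Finset.sup_le fun S hS => h S (Finset.mem_filter.1 hS).2

lemma steiner_phi {r s : ℕ} (hr : 1 ≤ r) {B : Finset (Finset (Fin (s + r)))}
    (hB : IsSteiner r s B) :
    phi ((univ : Finset (Fin (s + r))).powersetCard r \ B) ≤ s := by
  classical
  apply phi_le_of
  intro S hS
  by_contra hcon
  push Not at hcon
  obtain ⟨S', hS', hc⟩ := Finset.exists_subset_card_eq (show s + 1 ≤ S.card by omega)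
  obtain ⟨b, ⟨hb, hsub⟩, -⟩ := hB.2 S'ᶜ (by
    rw [Finset.card_compl, Fintype.card_fin, hc]
    omega)
  have hbc := hB.1 b hb
  have hcc : S'ᶜ.card = r - 1 := by
    rw [Finset.card_compl, Fintype.card_fin, hc]
    omega
  obtain ⟨v, hvb, hvS⟩ : ∃ v ∈ b, v ∉ S'ᶜ := by
    by_contra hne
    push Not at hne
    have := Finset.card_le_card (show b ⊆ S'ᶜ from hne)
    omega
  have hvS' : v ∈ S' := by simpa using hvS
  obtain ⟨e, he, hve, hsube⟩ := hS v (by simpa using hS' hvS')
  rw [Finset.mem_sdiff, Finset.mem_powersetCard] at he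
  have h1 : e.erase v ⊆ S'ᶜ := by
    intro w hw
    have := hsube hw
    rw [Finset.mem_compl] at this ⊢
    exact fun h => this (hS' h)
  have h2 : e.erase v = S'ᶜ := by
    refine Finset.eq_of_subset_of_card_le h1 ?_
    rw [Finset.card_erase_of_mem hve, he.1.2, hcc]
  have h3 : b.erase v = S'ᶜ := by
    refine (Finset.eq_of_subset_of_card_le ?_ ?_).symm
    · intro w hw
      refine Finset.mem_erase.2 ⟨?_, hsub hw⟩
      rintro rfl
      exact hvS hw
    · rw [Finset.card_erase_of_mem hvb, hbc, hcc]
  have h4 : e = b := by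
    rw [← Finset.insert_erase hve, ← Finset.insert_erase hvb, h2, h3]
  exact he.2 (h4 ▸ hb)

/-- (1) An `r`-uniform hypergraph with dominated number at most `s` has at most
`s / (s + 1) * C(r + s, r)` edges. (2) If there is a Steiner system `S(s + r, r, r - 1)`, then
`f_r(s) = C(s + r, r) - C(s + r, r - 1) / r`. -/
theorem result :
    (∀ r s : ℕ, 1 ≤ r → 1 ≤ s → ∀ m ∈ sizes r s, (s + 1) * m ≤ s * (s + r).choose r) ∧
    ∀ r s : ℕ, 1 ≤ r → 1 ≤ s → (∃ B, IsSteiner r s B) →
      IsGreatest (sizes r s) ((s + r).choose r - (s + r).choose (r - 1) / r) := by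
  classical
  have h1 : ∀ r s : ℕ, 1 ≤ r → 1 ≤ s → ∀ m ∈ sizes r s,
      (s + 1) * m ≤ s * (s + r).choose r := by
    rintro r s hr hs m ⟨V, i1, i2, H, hH, hphi, rfl⟩
    rw [add_comm s r]
    exact bound hr hs H hH hphi
  refine ⟨h1, fun r s hr hs ⟨B, hB⟩ => ?_⟩
  have hcard := steiner_card hr hB
  have hdiv : (s + r).choose (r - 1) / r = B.card := by
    rw [← hcard]
    exact Nat.mul_div_cancel _ (by omega)
  have hsub : B ⊆ (univ : Finset (Fin (s + r))).powersetCard r := fun b hb =>
    Finset.mem_powersetCard.2 ⟨Finset.subset_univ _, hB.1 b hb⟩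
  have hBs : B.card * (s + 1) = (s + r).choose r := by
    obtain ⟨r', rfl⟩ : ∃ r', r = r' + 1 := ⟨r - 1, by omega⟩
    have h3 := Nat.choose_succ_right_eq (s + (r' + 1)) r'
    simp only [Nat.add_sub_cancel] at hcard
    have h4 : s + (r' + 1) - r' = s + 1 := by omega
    rw [h4, ← hcard] at h3
    have h5 : (s + (r' + 1)).choose (r' + 1) * (r' + 1) = B.card * (s + 1) * (r' + 1) := by
      rw [h3]; ring
    exact (Nat.eq_of_mul_eq_mul_right (by omega) h5).symm
  rw [hdiv]
  constructor
  · refine ⟨Fin (s + r), inferInstance, inferInstance,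
      (univ : Finset (Fin (s + r))).powersetCard r \ B, ?_, ?_, ?_⟩
    · intro e he
      exact (Finset.mem_powersetCard.1 (Finset.mem_sdiff.1 he).1).2
    · exact steiner_phi hr hB
    · rw [Finset.card_sdiff_of_subset hsub, Finset.card_powersetCard, Finset.card_univ,
        Fintype.card_fin]
  · intro m hm
    have h2 := h1 r s hr hs m hm
    have h3 : B.card ≤ (s + r).choose r := by
      rw [← hBs]
      exact Nat.le_mul_of_pos_right _ (by omega)
    have h4 : (s + 1) * m ≤ (s + 1) * ((s + r).choose r - B.card) := by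
      rw [Nat.mul_sub, mul_comm (s + 1) B.card, hBs]
      refine h2.trans (le_of_eq ?_)
      rw [add_mul, one_mul, Nat.add_sub_cancel]
    exact Nat.le_of_mul_le_mul_left h4 (by omega)

end Pool.Agent.Results.MP_9be8d1_co.SteinerValue
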